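import Mathlib

set_option autoImplicit false

namespace Pool.Agent.Results.MP_afcd7b_gt.SpanGap

open Set Topology

/-- `X` is a simple triod: it is the union of three arcs (embedded copies of `[0,1]`) that share one
common endpoint and are otherwise pairwise disjoint. -/
def IsSimpleTriod (X : Type) [TopologicalSpace X] : Prop :=
  ∃ α : Fin 3 → unitInterval → X,
    (∀ i, IsEmbedding (α i)) ∧
    (∀ i j, i ≠ j → range (α i) ∩ range (α j) = {α i 0}) ∧
    (⋃ i, range (α i)) = univ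

/-- The numbers admissible for the surjective span. -/
def spanSet (X : Type) [MetricSpace X] : Set ℝ :=
  {a | 0 ≤ a ∧ ∃ C : Set (X × X), IsConnected C ∧
    Prod.fst '' C = univ ∧ Prod.snd '' C = univ ∧ ∀ p ∈ C, a ≤ dist p.1 p.2}

/-- The numbers admissible for the surjective semi-span. -/
def semispanSet (X : Type) [MetricSpace X] : Set ℝ :=
  {a | 0 ≤ a ∧ ∃ C : Set (X × X), IsConnected C ∧
    (Prod.fst '' C = univ ∨ Prod.snd '' C = univ) ∧ ∀ p ∈ C, a ≤ dist p.1 p.2}

/-- The surjective span. -/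
noncomputable def surjSpan (X : Type) [MetricSpace X] : ℝ := sSup (spanSet X)

/-- The surjective semi-span. -/
noncomputable def surjSemispan (X : Type) [MetricSpace X] : ℝ := sSup (semispanSet X)

/-- The underlying set of the example: three legs of lengths `1`, `1` and `3`. -/
@[ext]
structure T where
  a : ℝ
  b : ℝ
  c : ℝ
  ha0 : 0 ≤ a
  ha1 : a ≤ 1
  hb0 : 0 ≤ b
  hb1 : b ≤ 1
  hc0 : 0 ≤ c
  hc1 : c ≤ 3
  hab : a = 0 ∨ b = 0
  hac : a = 0 ∨ c = 0
  hbc : b = 0 ∨ c = 0

noncomputable def q (t : ℝ) : ℝ := min 0 (|t - 1| - 1)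

noncomputable def ph (t : ℝ) : ℝ := max (-2 * t) (min (3 * t - 5) (5 - 2 * t))

noncomputable def F (x : T) : ℝ := -x.a / 2 + 2 * x.b + ph x.c

noncomputable def Phi (x y : T) : ℝ := F x - F y + 3 * (x.a * q y.c - y.a * q x.c)

noncomputable def rho (x y : T) : ℝ := |x.a - y.a| + |x.b - y.b| + |x.c - y.c|

noncomputable def dd (x y : T) : ℝ := min (12 * rho x y) (1 / 2 + min (1 / 2) |Phi x y|)

lemma q_lip (s t : ℝ) : |q s - q t| ≤ |s - t| := by
  unfold q
  have h1 : |(min 0 (|s - 1| - 1)) - (min 0 (|t - 1| - 1))| ≤ |(|s - 1| - 1) - (|t - 1| - 1)| := by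
    have := abs_min_sub_min_le_max 0 (|s - 1| - 1) 0 (|t - 1| - 1)
    simpa using this
  refine h1.trans ?_
  have h2 : (|s - 1| - 1) - (|t - 1| - 1) = |s - 1| - |t - 1| := by ring
  rw [h2]
  refine (abs_abs_sub_abs_le_abs_sub _ _).trans ?_
  have h3 : s - 1 - (t - 1) = s - t := by ring
  rw [h3]

lemma q_nonpos (t : ℝ) : q t ≤ 0 := min_le_left _ _

lemma q_ge (t : ℝ) : -1 ≤ q t := by
  unfold q
  have := abs_nonneg (t - 1)
  apply le_min <;> linarith

lemma abs_q (t : ℝ) : |q t| ≤ 1 := by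
  rw [abs_le]
  exact ⟨q_ge t, (q_nonpos t).trans zero_le_one⟩

lemma ph_lip (s t : ℝ) : |ph s - ph t| ≤ 3 * |s - t| := by
  unfold ph
  refine (abs_max_sub_max_le_max _ _ _ _).trans (max_le ?_ ?_)
  · have : -2 * s - -2 * t = (-2) * (s - t) := by ring
    rw [this, abs_mul]
    have := abs_nonneg (s - t)
    norm_num
    linarith
  · refine (abs_min_sub_min_le_max _ _ _ _).trans (max_le ?_ ?_)
    · have : 3 * s - 5 - (3 * t - 5) = 3 * (s - t) := by ring
      rw [this, abs_mul]
      norm_num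
    · have : 5 - 2 * s - (5 - 2 * t) = (-2) * (s - t) := by ring
      rw [this, abs_mul]
      have := abs_nonneg (s - t)
      norm_num
      linarith

lemma F_lip (x y : T) : |F x - F y| ≤ 3 * rho x y := by
  unfold F rho
  have h1 := ph_lip x.c y.c
  have h2 := abs_nonneg (x.a - y.a)
  have h3 := abs_nonneg (x.b - y.b)
  have h4 : -x.a / 2 + 2 * x.b + ph x.c - (-y.a / 2 + 2 * y.b + ph y.c)
      = (-1 / 2) * (x.a - y.a) + 2 * (x.b - y.b) + (ph x.c - ph y.c) := by ring
  rw [h4]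
  refine (abs_add_three _ _ _).trans ?_
  rw [abs_mul, abs_mul]
  have e1 : |(-1 / 2 : ℝ)| = 1 / 2 := by rw [abs_of_neg] <;> norm_num
  have e2 : |(2 : ℝ)| = 2 := abs_of_pos (by norm_num)
  rw [e1, e2]
  linarith

lemma Phi_anti (x y : T) : Phi y x = -Phi x y := by
  unfold Phi; ring

lemma Phi_lip (x y z : T) : |Phi x z - Phi y z| ≤ 12 * rho x y := by
  have h1 := F_lip x y
  have h2 := q_lip x.c y.c
  have h3 := abs_q z.c
  have e : Phi x z - Phi y z
      = (F x - F y) + 3 * ((x.a - y.a) * q z.c) + 3 * (-z.a * (q x.c - q y.c)) := by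
    unfold Phi; ring
  rw [e]
  refine (abs_add_three _ _ _).trans ?_
  have h4 : |3 * ((x.a - y.a) * q z.c)| ≤ 3 * |x.a - y.a| := by
    rw [abs_mul, abs_mul]
    have := abs_nonneg (x.a - y.a)
    have e3 : |(3 : ℝ)| = 3 := abs_of_pos (by norm_num)
    rw [e3]
    nlinarith
  have h5 : |3 * (-z.a * (q x.c - q y.c))| ≤ 3 * |x.c - y.c| := by
    rw [abs_mul, abs_mul, abs_neg, abs_of_nonneg z.ha0]
    have e3 : |(3 : ℝ)| = 3 := abs_of_pos (by norm_num)
    rw [e3]
    have := abs_nonneg (q x.c - q y.c)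
    have := z.ha0
    have := z.ha1
    nlinarith
  have h6 := abs_nonneg (x.a - y.a)
  have h7 := abs_nonneg (x.b - y.b)
  have h8 := abs_nonneg (x.c - y.c)
  unfold rho at *
  linarith

lemma rho_nonneg (x y : T) : 0 ≤ rho x y := by
  unfold rho; positivity

lemma rho_comm (x y : T) : rho x y = rho y x := by
  unfold rho
  rw [abs_sub_comm x.a, abs_sub_comm x.b, abs_sub_comm x.c]

lemma rho_triangle (x y z : T) : rho x z ≤ rho x y + rho y z := by
  unfold rho
  have h1 := abs_sub_le x.a y.a z.a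
  have h2 := abs_sub_le x.b y.b z.b
  have h3 := abs_sub_le x.c y.c z.c
  linarith

lemma dd_comm (x y : T) : dd x y = dd y x := by
  unfold dd
  rw [rho_comm, Phi_anti y x, abs_neg]

lemma dd_le_one (x y : T) : dd x y ≤ 1 := by
  unfold dd
  refine (min_le_right _ _).trans ?_
  have : min (1 / 2) |Phi x y| ≤ 1 / 2 := min_le_left _ _
  linarith

lemma dd_triangle_aux (x y z : T) (h : dd x y = 12 * rho x y) : dd x z ≤ dd x y + dd y z := by
  rw [h]
  rcases min_choice (12 * rho y z) (1 / 2 + min (1 / 2) |Phi y z|) with h2 | h2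
  · have h3 : dd y z = 12 * rho y z := h2
    rw [h3]
    have h4 : dd x z ≤ 12 * rho x z := min_le_left _ _
    have := rho_triangle x y z
    linarith
  · have h3 : dd y z = 1 / 2 + min (1 / 2) |Phi y z| := h2
    rw [h3]
    have h4 : dd x z ≤ 1 / 2 + min (1 / 2) |Phi x z| := min_le_right _ _
    have h5 := Phi_lip x y z
    have h6 : |Phi x z| ≤ |Phi y z| + 12 * rho x y := by
      have := abs_sub_abs_le_abs_sub (Phi x z) (Phi y z)
      linarith
    have h7 : min (1 / 2) |Phi x z| ≤ min (1 / 2) |Phi y z| + 12 * rho x y := by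
      have h8 := rho_nonneg x y
      rcases min_choice (1 / 2) |Phi y z| with h9 | h9
      · rw [h9]
        have := min_le_left (1 / 2) |Phi x z|
        linarith
      · rw [h9]
        have := min_le_right (1 / 2) |Phi x z|
        linarith
    linarith

lemma dd_triangle (x y z : T) : dd x z ≤ dd x y + dd y z := by
  rcases min_choice (12 * rho x y) (1 / 2 + min (1 / 2) |Phi x y|) with h | h
  · exact dd_triangle_aux x y z h
  · rcases min_choice (12 * rho y z) (1 / 2 + min (1 / 2) |Phi y z|) with h2 | h2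
    · have h3 : dd z y = 12 * rho z y := by
        rw [dd_comm, rho_comm]; exact h2
      have := dd_triangle_aux z y x h3
      rw [dd_comm z x, dd_comm z y, dd_comm y x] at this
      linarith
    · have h3 : dd x y = 1 / 2 + min (1 / 2) |Phi x y| := h
      have h4 : dd y z = 1 / 2 + min (1 / 2) |Phi y z| := h2
      have h5 : 0 ≤ min (1 / 2) |Phi x y| := le_min (by norm_num) (abs_nonneg _)
      have h6 : 0 ≤ min (1 / 2) |Phi y z| := le_min (by norm_num) (abs_nonneg _)
      have := dd_le_one x z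
      linarith

lemma rho_self (x : T) : rho x x = 0 := by
  unfold rho; simp

lemma dd_self (x : T) : dd x x = 0 := by
  unfold dd
  rw [rho_self, mul_zero]
  have h6 : 0 ≤ min (1 / 2) |Phi x x| := le_min (by norm_num) (abs_nonneg _)
  exact min_eq_left (by linarith)

lemma eq_of_dd {x y : T} (h : dd x y = 0) : x = y := by
  rcases min_choice (12 * rho x y) (1 / 2 + min (1 / 2) |Phi x y|) with h2 | h2
  · have h3 : rho x y = 0 := by
      have : dd x y = 12 * rho x y := h2
      linarith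
    unfold rho at h3
    have h4 := abs_nonneg (x.a - y.a)
    have h5 := abs_nonneg (x.b - y.b)
    have h6 := abs_nonneg (x.c - y.c)
    have e1 : |x.a - y.a| = 0 := by linarith
    have e2 : |x.b - y.b| = 0 := by linarith
    have e3 : |x.c - y.c| = 0 := by linarith
    rw [abs_eq_zero, sub_eq_zero] at e1 e2 e3
    ext <;> assumption
  · have h3 : dd x y = 1 / 2 + min (1 / 2) |Phi x y| := h2
    have h5 : 0 ≤ min (1 / 2) |Phi x y| := le_min (by norm_num) (abs_nonneg _)
    linarith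

/-- The metric of the example. -/
noncomputable instance : MetricSpace T where
  dist := dd
  dist_self := dd_self
  dist_comm := dd_comm
  dist_triangle := dd_triangle
  eq_of_dist_eq_zero := eq_of_dd

lemma dist_def (x y : T) : dist x y = dd x y := rfl

lemma dist_le (x y : T) : dist x y ≤ 12 * rho x y := min_le_left _ _

/-- The clamp to `[0, L]`. -/
noncomputable def cl (L t : ℝ) : ℝ := max 0 (min t L)

lemma cl_nonneg (L t : ℝ) : 0 ≤ cl L t := le_max_left _ _

lemma cl_le (L t : ℝ) (hL : 0 ≤ L) : cl L t ≤ L := max_le hL (min_le_right _ _)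

lemma cl_of_mem {L t : ℝ} (h0 : 0 ≤ t) (h1 : t ≤ L) : cl L t = t := by
  unfold cl
  rw [min_eq_left h1, max_eq_right h0]

lemma cl_lip (L s t : ℝ) : |cl L s - cl L t| ≤ |s - t| := by
  unfold cl
  have h1 := abs_max_sub_max_le_max 0 (min s L) 0 (min t L)
  have h2 := abs_min_sub_min_le_max s L t L
  simp only [sub_self, abs_zero] at h1 h2
  refine h1.trans (max_le (abs_nonneg _) (h2.trans (max_le le_rfl (abs_nonneg _))))

noncomputable def leg1 (t : ℝ) : T :=
  ⟨cl 1 t, 0, 0, cl_nonneg _ _, cl_le _ _ zero_le_one, le_rfl, zero_le_one, le_rfl, by norm_num,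
    Or.inr rfl, Or.inr rfl, Or.inr rfl⟩

noncomputable def leg2 (t : ℝ) : T :=
  ⟨0, cl 1 t, 0, le_rfl, zero_le_one, cl_nonneg _ _, cl_le _ _ zero_le_one, le_rfl, by norm_num,
    Or.inl rfl, Or.inl rfl, Or.inr rfl⟩

noncomputable def leg3 (t : ℝ) : T :=
  ⟨0, 0, cl 3 t, le_rfl, zero_le_one, le_rfl, zero_le_one, cl_nonneg _ _, cl_le _ _ (by norm_num),
    Or.inl rfl, Or.inl rfl, Or.inl rfl⟩

lemma cont_of_rho (f : ℝ → T) (h : ∀ s t, rho (f s) (f t) ≤ |s - t|) : Continuous f := by
  refine LipschitzWith.continuous (K := 12) (LipschitzWith.of_dist_le_mul ?_)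
  intro s t
  have h1 := dist_le (f s) (f t)
  have h2 := h s t
  rw [Real.dist_eq]
  have : ((12 : NNReal) : ℝ) = 12 := by norm_num
  rw [this]
  linarith

lemma leg1_cont : Continuous leg1 := by
  apply cont_of_rho
  intro s t
  have := cl_lip 1 s t
  simpa [rho, leg1] using this

lemma leg2_cont : Continuous leg2 := by
  apply cont_of_rho
  intro s t
  have := cl_lip 1 s t
  simpa [rho, leg2] using this

lemma leg3_cont : Continuous leg3 := by
  apply cont_of_rho
  intro s t
  have := cl_lip 3 s t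
  simpa [rho, leg3] using this

lemma T_cases (x : T) : (∃ t ∈ Icc (0 : ℝ) 1, x = leg1 t) ∨ (∃ t ∈ Icc (0 : ℝ) 1, x = leg2 t) ∨
    (∃ t ∈ Icc (0 : ℝ) 3, x = leg3 t) := by
  rcases eq_or_ne x.a 0 with ha | ha
  · rcases eq_or_ne x.b 0 with hb | hb
    · right; right
      refine ⟨x.c, ⟨x.hc0, x.hc1⟩, ?_⟩
      ext
      · exact ha
      · exact hb
      · exact (cl_of_mem x.hc0 x.hc1).symm
    · right; left
      refine ⟨x.b, ⟨x.hb0, x.hb1⟩, ?_⟩
      ext
      · exact ha
      · exact (cl_of_mem x.hb0 x.hb1).symm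
      · exact x.hbc.resolve_left hb
  · left
    refine ⟨x.a, ⟨x.ha0, x.ha1⟩, ?_⟩
    ext
    · exact (cl_of_mem x.ha0 x.ha1).symm
    · exact x.hab.resolve_left ha
    · exact x.hac.resolve_left ha

lemma isSimpleTriod_T : IsSimpleTriod T := by
  have hinj : ∀ i : Fin 3, Function.Injective
      (fun t : unitInterval => (![leg1 t, leg2 t, leg3 (3 * t)] : Fin 3 → T) i) := by
    intro i s t h
    have hs0 := s.2.1
    have hs1 := s.2.2
    have ht0 := t.2.1
    have ht1 := t.2.2
    apply Subtype.ext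
    fin_cases i
    · have h2 : (leg1 s).a = (leg1 t).a := congrArg T.a h
      simp only [leg1] at h2
      rwa [cl_of_mem hs0 hs1, cl_of_mem ht0 ht1] at h2
    · have h2 : (leg2 s).b = (leg2 t).b := congrArg T.b h
      simp only [leg2] at h2
      rwa [cl_of_mem hs0 hs1, cl_of_mem ht0 ht1] at h2
    · have h2 : (leg3 (3 * s)).c = (leg3 (3 * t)).c := congrArg T.c h
      simp only [leg3] at h2
      rw [cl_of_mem (by linarith) (by linarith), cl_of_mem (by linarith) (by linarith)] at h2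
      linarith
  have hcont : ∀ i : Fin 3, Continuous
      (fun t : unitInterval => (![leg1 t, leg2 t, leg3 (3 * t)] : Fin 3 → T) i) := by
    intro i
    fin_cases i
    · exact leg1_cont.comp continuous_subtype_val
    · exact leg2_cont.comp continuous_subtype_val
    · exact leg3_cont.comp (continuous_const.mul continuous_subtype_val)
  refine ⟨fun i t => (![leg1 t, leg2 t, leg3 (3 * t)] : Fin 3 → T) i, ?_, ?_, ?_⟩
  · intro i
    exact ((hcont i).isClosedEmbedding (hinj i)).isEmbedding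
  · have key : ∀ i j : Fin 3, i ≠ j → ∀ s t : unitInterval,
        (![leg1 s, leg2 s, leg3 (3 * s)] : Fin 3 → T) i
          = (![leg1 t, leg2 t, leg3 (3 * t)] : Fin 3 → T) j → (s : ℝ) = 0 := by
      intro i j hij s t h
      have hs0 := s.2.1
      have hs1 := s.2.2
      have ht0 := t.2.1
      have ht1 := t.2.2
      fin_cases i <;> fin_cases j
      · exact absurd rfl hij
      · have h2 : (leg1 s).a = (leg2 t).a := congrArg T.a h
        simp only [leg1, leg2] at h2
        rwa [cl_of_mem hs0 hs1] at h2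
      · have h2 : (leg1 s).a = (leg3 (3 * t)).a := congrArg T.a h
        simp only [leg1, leg3] at h2
        rwa [cl_of_mem hs0 hs1] at h2
      · have h2 : (leg2 s).b = (leg1 t).b := congrArg T.b h
        simp only [leg1, leg2] at h2
        rwa [cl_of_mem hs0 hs1] at h2
      · exact absurd rfl hij
      · have h2 : (leg2 s).b = (leg3 (3 * t)).b := congrArg T.b h
        simp only [leg2, leg3] at h2
        rwa [cl_of_mem hs0 hs1] at h2
      · have h2 : (leg3 (3 * s)).c = (leg1 t).c := congrArg T.c h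
        simp only [leg1, leg3] at h2
        rw [cl_of_mem (by linarith) (by linarith)] at h2
        linarith
      · have h2 : (leg3 (3 * s)).c = (leg2 t).c := congrArg T.c h
        simp only [leg2, leg3] at h2
        rw [cl_of_mem (by linarith) (by linarith)] at h2
        linarith
      · exact absurd rfl hij
    have hzero : ∀ i j : Fin 3,
        (![leg1 (0 : unitInterval), leg2 (0 : unitInterval), leg3 (3 * (0 : unitInterval))]
          : Fin 3 → T) i
        = (![leg1 (0 : unitInterval), leg2 (0 : unitInterval), leg3 (3 * (0 : unitInterval))]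
          : Fin 3 → T) j := by
      have c1 : cl 1 0 = 0 := cl_of_mem le_rfl zero_le_one
      have c3 : cl 3 0 = 0 := cl_of_mem le_rfl (by norm_num)
      intro i j
      fin_cases i <;> fin_cases j <;> ext <;> simp [leg1, leg2, leg3, c1, c3]
    intro i j hij
    apply Set.Subset.antisymm
    · rintro x ⟨⟨s, hs⟩, ⟨t, ht⟩⟩
      have h0 := key i j hij s t (hs.trans ht.symm)
      have hs' : s = 0 := Subtype.ext h0
      rw [mem_singleton_iff, ← hs, hs']
    · rintro x hx
      rw [mem_singleton_iff] at hx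
      subst hx
      exact ⟨⟨0, rfl⟩, ⟨0, hzero j i⟩⟩
  · apply eq_univ_of_forall
    intro x
    rw [mem_iUnion]
    rcases T_cases x with ⟨t, ht, rfl⟩ | ⟨t, ht, rfl⟩ | ⟨t, ht, rfl⟩
    · exact ⟨0, ⟨t, ht⟩, rfl⟩
    · exact ⟨1, ⟨t, ht⟩, rfl⟩
    · refine ⟨2, ⟨t / 3, ⟨by linarith [ht.1], by linarith [ht.2]⟩⟩, ?_⟩
      show leg3 (3 * (t / 3)) = leg3 t
      congr 1
      ring

lemma Phi_cont : Continuous (fun p : T × T => Phi p.1 p.2) := by
  have hFa : ∀ x y : T, min (1 / 2 : ℝ) (12 * rho x y) ≤ dist x y := by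
    intro x y
    rw [dist_def]
    unfold dd
    have h5 : 0 ≤ min (1 / 2) |Phi x y| := le_min (by norm_num) (abs_nonneg _)
    refine le_min (min_le_right _ _) ?_
    refine (min_le_left _ _).trans (by linarith)
  have hrho : ∀ x y : T, dist x y < 1 / 2 → 12 * rho x y ≤ dist x y := by
    intro x y h
    have := hFa x y
    rcases min_choice (1 / 2 : ℝ) (12 * rho x y) with h2 | h2
    · rw [h2] at this; linarith
    · rw [h2] at this; exact this
  rw [Metric.continuous_iff]
  intro p ε hε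
  refine ⟨min (1 / 2) (ε / 2), lt_min (by norm_num) (by linarith), ?_⟩
  intro p' hp
  rw [Prod.dist_eq] at hp
  have h1 : dist p'.1 p.1 < min (1 / 2) (ε / 2) := lt_of_le_of_lt (le_max_left _ _) hp
  have h2 : dist p'.2 p.2 < min (1 / 2) (ε / 2) := lt_of_le_of_lt (le_max_right _ _) hp
  have h3 := hrho _ _ (lt_of_lt_of_le h1 (min_le_left _ _))
  have h4 := hrho _ _ (lt_of_lt_of_le h2 (min_le_left _ _))
  have h5 := Phi_lip p'.1 p.1 p'.2
  have h6 := Phi_lip p'.2 p.2 p.1
  rw [Phi_anti p.1 p'.2, Phi_anti p.1 p.2] at h6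
  have h7 := min_le_right (1 / 2) (ε / 2)
  rw [Real.dist_eq]
  have h8 : Phi p'.1 p'.2 - Phi p.1 p.2
      = (Phi p'.1 p'.2 - Phi p.1 p'.2) + -(-Phi p.1 p'.2 - -Phi p.1 p.2) := by ring
  rw [h8]
  refine lt_of_le_of_lt (abs_add_le _ _) ?_
  rw [abs_neg]
  linarith

/-- The end point of the second leg. -/
noncomputable def e2 : T := leg2 1

lemma ph_le (t : ℝ) (h0 : 0 ≤ t) : ph t ≤ 1 := by
  unfold ph
  refine max_le (by linarith) ?_
  rcases le_total t 2 with h | h
  · exact (min_le_left _ _).trans (by linarith)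
  · exact (min_le_right _ _).trans (by linarith)

lemma Phi_e2 (x : T) : Phi x e2 ≤ 0 := by
  have h1 : (e2).a = 0 := rfl
  have h2 : (e2).b = 1 := cl_of_mem zero_le_one le_rfl
  have h3 : (e2).c = 0 := rfl
  have hq : q 0 = 0 := by unfold q; norm_num
  have hp : ph 0 = 0 := by unfold ph; norm_num
  have h4 := ph_le x.c x.hc0
  have h5 := x.ha0
  unfold Phi F
  rw [h1, h2, h3, hq, hp]
  rcases x.hbc with hb | hc
  · rw [hb]; linarith
  · rw [hc, hp]
    have := x.hb1
    linarith

lemma span_le_half (a : ℝ) (ha : a ∈ spanSet T) : a ≤ 1 / 2 := by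
  obtain ⟨-, C, hC, h1, h2, h3⟩ := ha
  by_contra hlt
  rw [not_le] at hlt
  have hne : ∀ p ∈ C, Phi p.1 p.2 ≠ 0 := by
    intro p hp h0
    have h4 := h3 p hp
    rw [dist_def] at h4
    unfold dd at h4
    have h5 := h4.trans (min_le_right _ _)
    rw [h0, abs_zero, min_eq_right (by norm_num : (0 : ℝ) ≤ 1 / 2)] at h5
    linarith
  obtain ⟨p, hp, hp2⟩ : e2 ∈ Prod.snd '' C := by rw [h2]; exact mem_univ _
  obtain ⟨r, hr, hr1⟩ : e2 ∈ Prod.fst '' C := by rw [h1]; exact mem_univ _
  have hpn : Phi p.1 p.2 ≤ 0 := by rw [hp2]; exact Phi_e2 _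
  have hrn : 0 ≤ Phi r.1 r.2 := by
    have := Phi_e2 r.2
    rw [← hr1, Phi_anti] at this
    linarith
  have hiv := hC.isPreconnected.intermediate_value hp hr Phi_cont.continuousOn
  obtain ⟨z, hz, hz0⟩ := hiv ⟨hpn, hrn⟩
  exact hne z hz hz0

/-- The continuum in the square of the example. -/
noncomputable def Cset : Set (T × T) :=
  (((((((((fun t => (leg1 t, leg3 3)) '' Icc (0 : ℝ) 1) ∪
  ((fun t => (leg2 t, leg3 3)) '' Icc (0 : ℝ) 1)) ∪
  ((fun t => (leg2 1, leg3 t)) '' Icc (0 : ℝ) 3)) ∪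
  ((fun t => (leg2 1, leg1 t)) '' Icc (0 : ℝ) 1)) ∪
  ((fun t => (leg2 t, leg1 1)) '' Icc (0 : ℝ) 1)) ∪
  ((fun t => (leg3 t, leg1 1)) '' Icc (0 : ℝ) 2)) ∪
  ((fun t => (leg3 2, leg1 t)) '' Icc (0 : ℝ) 1)) ∪
  ((fun t => (leg3 2, leg3 t)) '' Icc (0 : ℝ) 1)) ∪
  ((fun t => (leg3 t, leg3 1)) '' Icc (2 : ℝ) 3)

lemma zero13 : leg1 0 = leg3 0 := by
  have c1 : cl 1 0 = 0 := cl_of_mem le_rfl zero_le_one
  have c3 : cl 3 0 = 0 := cl_of_mem le_rfl (by norm_num)
  ext <;> simp [leg1, leg3, c1, c3]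

lemma zero12 : leg1 0 = leg2 0 := by
  have c1 : cl 1 0 = 0 := cl_of_mem le_rfl zero_le_one
  ext <;> simp [leg1, leg2, c1]

lemma zero23 : leg2 0 = leg3 0 := zero12.symm.trans zero13

lemma Cset_conn : IsConnected Cset := by
  have seg1 : ∀ (f : ℝ → T) (y : T) (u v : ℝ), u ≤ v → Continuous f →
      IsConnected ((fun t => (f t, y)) '' Icc u v) := by
    intro f y u v huv hf
    exact (isConnected_Icc huv).image _ (hf.prodMk continuous_const).continuousOn
  have seg2 : ∀ (f : ℝ → T) (x : T) (u v : ℝ), u ≤ v → Continuous f →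
      IsConnected ((fun t => (x, f t)) '' Icc u v) := by
    intro f y u v huv hf
    exact (isConnected_Icc huv).image _ (continuous_const.prodMk hf).continuousOn
  have s1 := seg1 leg1 (leg3 3) 0 1 zero_le_one leg1_cont
  have s2 := seg1 leg2 (leg3 3) 0 1 zero_le_one leg2_cont
  have s3 := seg2 leg3 (leg2 1) 0 3 (by norm_num) leg3_cont
  have s4 := seg2 leg1 (leg2 1) 0 1 zero_le_one leg1_cont
  have s5 := seg1 leg2 (leg1 1) 0 1 zero_le_one leg2_cont
  have s6 := seg1 leg3 (leg1 1) 0 2 (by norm_num) leg3_cont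
  have s7 := seg2 leg1 (leg3 2) 0 1 zero_le_one leg1_cont
  have s8 := seg2 leg3 (leg3 2) 0 1 zero_le_one leg3_cont
  have s9 := seg1 leg3 (leg3 1) 2 3 (by norm_num) leg3_cont
  unfold Cset
  refine IsConnected.union ?_ (IsConnected.union ?_ (IsConnected.union ?_ (IsConnected.union ?_
    (IsConnected.union ?_ (IsConnected.union ?_ (IsConnected.union ?_ (IsConnected.union ?_
      s1 s2) s3) s4) s5) s6) s7) s8) s9
  · exact ⟨(leg3 2, leg3 1), Or.inr ⟨1, ⟨by norm_num, le_rfl⟩, rfl⟩, ⟨2, ⟨le_rfl, by norm_num⟩, rfl⟩⟩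
  · refine ⟨(leg3 2, leg3 0), Or.inr ⟨0, ⟨le_rfl, by norm_num⟩, ?_⟩, ⟨0, ⟨le_rfl, by norm_num⟩, rfl⟩⟩
    simp only [zero13]
  · exact ⟨(leg3 2, leg1 1), Or.inr ⟨2, ⟨by norm_num, le_rfl⟩, rfl⟩, ⟨1, ⟨by norm_num, le_rfl⟩, rfl⟩⟩
  · refine ⟨(leg3 0, leg1 1), Or.inr ⟨0, ⟨le_rfl, by norm_num⟩, ?_⟩, ⟨0, ⟨le_rfl, by norm_num⟩, rfl⟩⟩
    simp only [zero23]
  · exact ⟨(leg2 1, leg1 1), Or.inr ⟨1, ⟨by norm_num, le_rfl⟩, rfl⟩, ⟨1, ⟨by norm_num, le_rfl⟩, rfl⟩⟩
  · refine ⟨(leg2 1, leg1 0), Or.inr ⟨0, ⟨le_rfl, by norm_num⟩, ?_⟩, ⟨0, ⟨le_rfl, by norm_num⟩, rfl⟩⟩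
    simp only [zero13]
  · exact ⟨(leg2 1, leg3 3), Or.inr ⟨1, ⟨by norm_num, le_rfl⟩, rfl⟩, ⟨3, ⟨by norm_num, le_rfl⟩, rfl⟩⟩
  · refine ⟨(leg1 0, leg3 3), ⟨0, ⟨le_rfl, by norm_num⟩, rfl⟩, ⟨0, ⟨le_rfl, by norm_num⟩, ?_⟩⟩
    simp only [zero12]

lemma Cset_fst : Prod.fst '' Cset = univ := by
  apply eq_univ_of_forall
  intro x
  unfold Cset
  rcases T_cases x with ⟨t, ht, rfl⟩ | ⟨t, ht, rfl⟩ | ⟨t, ht, rfl⟩
  · exact ⟨(leg1 t, leg3 3), by
      left; left; left; left; left; left; left; left; exact ⟨t, ht, rfl⟩, rfl⟩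
  · exact ⟨(leg2 t, leg3 3), by
      left; left; left; left; left; left; left; right; exact ⟨t, ht, rfl⟩, rfl⟩
  · rcases le_total t 2 with h | h
    · exact ⟨(leg3 t, leg1 1), by
        left; left; left; right; exact ⟨t, ⟨ht.1, h⟩, rfl⟩, rfl⟩
    · exact ⟨(leg3 t, leg3 1), by
        right; exact ⟨t, ⟨h, ht.2⟩, rfl⟩, rfl⟩

lemma one_le_dist (x y : T) (h1 : 1 ≤ 12 * rho x y) (h2 : 1 / 2 ≤ Phi x y) : 1 ≤ dist x y := by
  rw [dist_def]
  unfold dd
  refine le_min h1 ?_
  have h3 : 1 / 2 ≤ |Phi x y| := h2.trans (le_abs_self _)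
  rw [min_eq_left h3]
  norm_num

lemma Cset_dist : ∀ p ∈ Cset, (1 : ℝ) ≤ dist p.1 p.2 := by
  have c11 : cl 1 1 = 1 := cl_of_mem zero_le_one le_rfl
  have c33 : cl 3 3 = 3 := cl_of_mem (by norm_num) le_rfl
  have c32 : cl 3 2 = 2 := cl_of_mem (by norm_num) (by norm_num)
  have c31 : cl 3 1 = 1 := cl_of_mem (by norm_num) (by norm_num)
  have q0 : q 0 = 0 := by unfold q; norm_num
  have q3 : q 3 = 0 := by unfold q; norm_num
  have q2 : q 2 = 0 := by unfold q; norm_num
  have p0 : ph 0 = 0 := by unfold ph; norm_num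
  have p1 : ph 1 = -2 := by unfold ph; norm_num
  have p2 : ph 2 = 1 := by unfold ph; norm_num
  have p3 : ph 3 = -1 := by unfold ph; norm_num
  intro p hp
  unfold Cset at hp
  rcases hp with (((((((⟨t, ⟨h0, h1⟩, rfl⟩ | ⟨t, ⟨h0, h1⟩, rfl⟩) | ⟨t, ⟨h0, h1⟩, rfl⟩) |
    ⟨t, ⟨h0, h1⟩, rfl⟩) | ⟨t, ⟨h0, h1⟩, rfl⟩) | ⟨t, ⟨h0, h1⟩, rfl⟩) | ⟨t, ⟨h0, h1⟩, rfl⟩) |
    ⟨t, ⟨h0, h1⟩, rfl⟩) | ⟨t, ⟨h0, h1⟩, rfl⟩
  · have ct : cl 1 t = t := cl_of_mem h0 h1
    apply one_le_dist
    · simp only [rho, leg1, leg3, ct, c33]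
      have := abs_nonneg (t - 0)
      norm_num
      linarith [abs_nonneg t]
    · simp only [Phi, F, leg1, leg3, ct, c33, q0, q3, p0, p3]
      linarith
  · have ct : cl 1 t = t := cl_of_mem h0 h1
    apply one_le_dist
    · simp only [rho, leg2, leg3, ct, c33]
      norm_num
      linarith [abs_nonneg t]
    · simp only [Phi, F, leg2, leg3, ct, c33, q0, q3, p0, p3]
      linarith
  · have ct : cl 3 t = t := cl_of_mem h0 h1
    have hp := ph_le t h0
    apply one_le_dist
    · simp only [rho, leg2, leg3, ct, c11]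
      norm_num
      linarith [abs_nonneg t]
    · simp only [Phi, F, leg2, leg3, ct, c11, q0, p0]
      linarith
  · have ct : cl 1 t = t := cl_of_mem h0 h1
    apply one_le_dist
    · simp only [rho, leg2, leg1, ct, c11]
      norm_num
      linarith [abs_nonneg t]
    · simp only [Phi, F, leg2, leg1, ct, c11, q0, p0]
      linarith
  · have ct : cl 1 t = t := cl_of_mem h0 h1
    apply one_le_dist
    · simp only [rho, leg2, leg1, ct, c11]
      norm_num
      linarith [abs_nonneg t]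
    · simp only [Phi, F, leg2, leg1, ct, c11, q0, p0]
      linarith
  · have ct : cl 3 t = t := cl_of_mem h0 (by linarith)
    have hp : 3 * q t ≤ ph t := by
      unfold q ph
      rcases le_total t 1 with h | h
      · rw [abs_of_nonpos (by linarith : t - 1 ≤ 0)]
        refine le_trans ?_ (le_max_left _ _)
        have := min_le_right 0 (-(t - 1) - 1)
        linarith
      · rw [abs_of_nonneg (by linarith : 0 ≤ t - 1)]
        refine le_trans ?_ (le_max_right _ _)
        refine le_min ?_ ?_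
        · have := min_le_right 0 (t - 1 - 1)
          linarith
        · have := min_le_left 0 (t - 1 - 1)
          linarith
    apply one_le_dist
    · simp only [rho, leg3, leg1, ct, c11]
      norm_num
      linarith [abs_nonneg t]
    · simp only [Phi, F, leg3, leg1, ct, c11, q0, p0]
      linarith
  · have ct : cl 1 t = t := cl_of_mem h0 h1
    apply one_le_dist
    · simp only [rho, leg3, leg1, ct, c32]
      norm_num
      linarith [abs_nonneg t]
    · simp only [Phi, F, leg3, leg1, ct, c32, q0, q2, p0, p2]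
      linarith
  · have ct : cl 3 t = t := cl_of_mem h0 (by linarith)
    have hp : ph t ≤ 0 := by
      unfold ph
      refine max_le (by linarith) ((min_le_left _ _).trans (by linarith))
    apply one_le_dist
    · simp only [rho, leg3, ct, c32]
      rw [abs_of_nonneg (by linarith : 0 ≤ 2 - t)]
      norm_num
      linarith
    · simp only [Phi, F, leg3, ct, c32, p2]
      linarith
  · have ct : cl 3 t = t := cl_of_mem (by linarith) h1
    have hp : -1 ≤ ph t := by
      unfold ph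
      refine le_trans ?_ (le_max_right _ _)
      refine le_min (by linarith) (by linarith)
    apply one_le_dist
    · simp only [rho, leg3, ct, c31]
      rw [abs_of_nonneg (by linarith : 0 ≤ t - 1)]
      norm_num
      linarith
    · simp only [Phi, F, leg3, ct, c31, p1]
      linarith

lemma surjSpan_le : surjSpan T ≤ 1 / 2 := by
  have h0 : (0 : ℝ) ∈ spanSet T := by
    refine ⟨le_rfl, (fun x : T => (x, x)) '' univ, ?_, ?_, ?_, fun p _ => dist_nonneg⟩
    · have hT : IsConnected (univ : Set T) := by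
        rw [← Cset_fst]
        exact Cset_conn.image _ continuous_fst.continuousOn
      exact hT.image _ (continuous_id.prodMk continuous_id).continuousOn
    · rw [image_image]; simp
    · rw [image_image]; simp
  exact csSup_le ⟨0, h0⟩ span_le_half

lemma surjSemispan_eq : surjSemispan T = 1 := by
  apply le_antisymm
  · refine csSup_le ⟨1, zero_le_one, Cset, Cset_conn, Or.inl Cset_fst, Cset_dist⟩ ?_
    rintro a ⟨-, C, hC, -, h3⟩
    obtain ⟨p, hp⟩ := hC.nonempty
    exact (h3 p hp).trans (dd_le_one _ _)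
  · refine le_csSup ⟨1, ?_⟩ ⟨zero_le_one, Cset, Cset_conn, Or.inl Cset_fst, Cset_dist⟩
    rintro a ⟨-, C, hC, -, h3⟩
    obtain ⟨p, hp⟩ := hC.nonempty
    exact (h3 p hp).trans (dd_le_one _ _)

/-- There is a simple triod with a compatible metric whose surjective semi-span is `1` and whose
surjective span is at most `1/2`. -/
theorem result : ∃ (X : Type) (_ : MetricSpace X), IsSimpleTriod X ∧
    surjSemispan X = 1 ∧ surjSpan X ≤ 1 / 2 :=
  ⟨T, inferInstance, isSimpleTriod_T, surjSemispan_eq, surjSpan_le⟩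

end Pool.Agent.Results.MP_afcd7b_gt.SpanGap
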